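import Pool.Agent.helper60.DA.SpecW

/-!
Row dw:MA (MP_fb2c2a_nt): the substitution `M = (1+4X)^h y` in the common operator.
-/

set_option autoImplicit false

namespace Pool.Agent.helper60.DA

open Polynomial Finset Pool.Agent.helper60.DK

theorem MA_du : derivative (1 + 4 * X : ℤ[X]) = 4 := by
  rw [derivative_add, derivative_one, derivative_mul, derivative_X, derivative_ofNat]
  ring

theorem MA_dA (h : ℕ) : (1 + 4 * X) * derivative ((1 + 4 * X : ℤ[X]) ^ h) =
    4 * (h : ℤ[X]) * (1 + 4 * X) ^ h := by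
  rw [derivative_pow, MA_du]
  cases h with
  | zero => simp
  | succ k =>
    rw [Nat.add_sub_cancel]
    have : (C ((k + 1 : ℕ) : ℤ) : ℤ[X]) = ((k + 1 : ℕ) : ℤ[X]) := by simp
    rw [this]
    ring

theorem MA_dA2 (h : ℕ) : (1 + 4 * X) * derivative (derivative ((1 + 4 * X : ℤ[X]) ^ h)) =
    4 * ((h : ℤ[X]) - 1) * derivative ((1 + 4 * X : ℤ[X]) ^ h) := by
  have e := congrArg derivative (MA_dA h)
  rw [derivative_mul, MA_du, derivative_mul, derivative_mul, derivative_natCast, derivative_ofNat] at e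
  linear_combination e

theorem MA : MA_stmt := by
  intro h y
  have e1 := MA_dA h
  have e2 := MA_dA2 h
  have hpow : (1 + 4 * X : ℤ[X]) ^ (2 * h + 1) = (1 + 4 * X) * ((1 + 4 * X) ^ h) ^ 2 := by ring
  have hC : (C (2 * (h : ℤ) + 1) : ℤ[X]) = 2 * (h : ℤ[X]) + 1 := by
    rw [map_add, map_mul]; simp
  rw [hpow, hC]
  unfold Jc Jop Dx
  rw [derivative_mul (f := (X : ℤ[X])), derivative_X,
    derivative_mul (f := (1 + 4 * X : ℤ[X]) ^ h)]
  rw [derivative_add, derivative_mul (f := derivative ((1 + 4 * X : ℤ[X]) ^ h)),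
    derivative_mul (f := (1 + 4 * X : ℤ[X]) ^ h)]
  generalize hA2 : derivative (derivative ((1 + 4 * X : ℤ[X]) ^ h)) = A2 at *
  generalize hA1 : derivative ((1 + 4 * X : ℤ[X]) ^ h) = A1 at *
  generalize hA0 : (1 + 4 * X : ℤ[X]) ^ h = A at *
  generalize hy2 : derivative (derivative y) = y2
  generalize hy1 : derivative y = y1
  generalize hH : (h : ℤ[X]) = H at *
  have E1 : (1 + 4 * X) * (A1 * y + A * y1) = A * (4 * H * y + (1 + 4 * X) * y1) := by
    linear_combination y * e1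
  have E2 : (1 + 4 * X) ^ 2 * (A2 * y + A1 * y1 + (A1 * y1 + A * y2)) =
      A * ((16 * H ^ 2 - 16 * H) * y + 8 * H * (1 + 4 * X) * y1 + (1 + 4 * X) ^ 2 * y2) := by
    linear_combination (1 + 4 * X) * y * e2 + (4 * (H - 1) * y + 2 * (1 + 4 * X) * y1) * e1
  linear_combination (8 * (1 + X) ^ 2 * X ^ 2 * (A * y)) * E2 +
    (8 * (1 + X) ^ 2 * X * (1 + 4 * X) * (A * y) + 8 * X ^ 2 * (1 + X) * (5 + 8 * X) * (A * y)
      - 16 * (2 * H + 1) * X ^ 2 * (1 + X) ^ 2 * (A * y)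
      - 4 * (1 + X) ^ 2 * X ^ 2 * ((1 + 4 * X) * (A1 * y + A * y1) +
        A * (4 * H * y + (1 + 4 * X) * y1))) * E1

end Pool.Agent.helper60.DA
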